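import Pool.Agent.J4.H63.TL.Seq

/-!
# The limit of `(r + 1) t(r+1, r)`
-/

set_option autoImplicit false

open Finset Filter Topology

namespace Pool.Agent.J4.H63.TL

open Pool.Agent.H369R2.TD

/-- the lower tail of the Poisson distribution -/
theorem tail_le {k : ℕ} {y : ℝ} (hk : 0 < k) (hy : (k : ℝ) ≤ y) :
    Real.exp (-y) * ∑ j ∈ range (k + 1), y ^ j / (j.factorial : ℝ) ≤
      Real.exp (k - y) * (y / k) ^ k := by
  have hk0 : (0 : ℝ) < k := by exact_mod_cast hk
  have h1 : (1 : ℝ) ≤ y / k := by rwa [le_div_iff₀ hk0, one_mul]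
  have h2 : ∑ j ∈ range (k + 1), y ^ j / (j.factorial : ℝ) ≤
      (y / k) ^ k * ∑ j ∈ range (k + 1), (k : ℝ) ^ j / (j.factorial : ℝ) := by
    rw [mul_sum]
    refine sum_le_sum fun j hj => ?_
    have hj' : j ≤ k := by have := mem_range.1 hj; omega
    have e : y ^ j = (y / k) ^ j * (k : ℝ) ^ j := by
      rw [← mul_pow]; congr 1; field_simp
    rw [e, mul_div_assoc]
    exact mul_le_mul_of_nonneg_right (pow_le_pow_right₀ h1 hj') (by positivity)
  have h3 : ∑ j ∈ range (k + 1), (k : ℝ) ^ j / (j.factorial : ℝ) ≤ Real.exp k :=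
    Real.sum_le_exp_of_nonneg hk0.le _
  have h4 : 0 < (y / k) ^ k := by positivity
  calc Real.exp (-y) * ∑ j ∈ range (k + 1), y ^ j / (j.factorial : ℝ)
      ≤ Real.exp (-y) * ((y / k) ^ k * Real.exp k) :=
        mul_le_mul_of_nonneg_left (h2.trans (mul_le_mul_of_nonneg_left h3 h4.le))
          (Real.exp_pos _).le
    _ = Real.exp (k - y) * (y / k) ^ k := by
        rw [sub_eq_add_neg, Real.exp_add]; ring

/-- one value of `t(r+1, r)` bounds the Poisson averages -/
theorem G_le {r : ℕ} {y : ℝ} (hy : 0 ≤ y) :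
    G y ≤ KK * (Real.exp (-y) * ∑ j ∈ range (r + 2), y ^ j / (j.factorial : ℝ)) + y * tt r := by
  have hK : (0 : ℝ) ≤ KK := by unfold KK; norm_num
  have hpt : ∀ j : ℕ, cj j * (y ^ j / (j.factorial : ℝ)) ≤
      (if j < r + 2 then KK * (y ^ j / (j.factorial : ℝ)) else 0) +
        tt r * ((j : ℝ) * (y ^ j / (j.factorial : ℝ))) := by
    intro j
    have hp : (0 : ℝ) ≤ y ^ j / (j.factorial : ℝ) := by positivity
    have ht := tt_nonneg r
    by_cases hj : j < r + 2
    · rw [if_pos hj]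
      have h1 := mul_le_mul_of_nonneg_right (cj_le j) hp
      have h2 : 0 ≤ tt r * ((j : ℝ) * (y ^ j / (j.factorial : ℝ))) := by positivity
      linarith
    · rw [if_neg hj, zero_add]
      unfold cj
      have h1 : tt (j - 1) ≤ tt r := tt_anti (by omega)
      have h2 : (j : ℝ) * tt (j - 1) ≤ (j : ℝ) * tt r :=
        mul_le_mul_of_nonneg_left h1 (Nat.cast_nonneg _)
      calc (j : ℝ) * tt (j - 1) * (y ^ j / (j.factorial : ℝ))
          ≤ (j : ℝ) * tt r * (y ^ j / (j.factorial : ℝ)) := mul_le_mul_of_nonneg_right h2 hp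
        _ = _ := by ring
  -- the first moment
  have hs1 : HasSum (fun j : ℕ => (j : ℝ) * (y ^ j / (j.factorial : ℝ))) (y * Real.exp y) := by
    have h1 : HasSum (fun j : ℕ => y * (y ^ j / (j.factorial : ℝ))) (y * Real.exp y) := by
      have h2 := (Real.summable_pow_div_factorial y).hasSum
      rw [exp_tsum] at h2
      exact h2.mul_left y
    have h3 : (fun j : ℕ => y * (y ^ j / (j.factorial : ℝ))) =
        fun j : ℕ => ((j + 1 : ℕ) : ℝ) * (y ^ (j + 1) / ((j + 1).factorial : ℝ)) := by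
      funext j
      rw [Nat.factorial_succ]
      have h4 : (0 : ℝ) < (j.factorial : ℝ) := by positivity
      push_cast
      field_simp
      ring
    rw [h3] at h1
    have h5 := (hasSum_nat_add_iff (f := fun j : ℕ => (j : ℝ) * (y ^ j / (j.factorial : ℝ))) 1).1 h1
    simpa using h5
  have hs2 : HasSum (fun j : ℕ => if j < r + 2 then KK * (y ^ j / (j.factorial : ℝ)) else 0)
      (∑ j ∈ range (r + 2), KK * (y ^ j / (j.factorial : ℝ))) := by
    have h : HasSum (fun j : ℕ => if j < r + 2 then KK * (y ^ j / (j.factorial : ℝ)) else 0)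
        (∑ j ∈ range (r + 2), (if j < r + 2 then KK * (y ^ j / (j.factorial : ℝ)) else 0)) :=
      hasSum_sum_of_ne_finset_zero (fun j hj => by
        have : ¬ j < r + 2 := by simpa using hj
        simp only [if_neg this])
    have e : ∑ j ∈ range (r + 2), (if j < r + 2 then KK * (y ^ j / (j.factorial : ℝ)) else 0) =
        ∑ j ∈ range (r + 2), KK * (y ^ j / (j.factorial : ℝ)) :=
      sum_congr rfl fun j hj => if_pos (mem_range.1 hj)
    rwa [e] at h
  have hs3 := hs2.add (hs1.mul_left (tt r))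
  have h6 := hasSum_le hpt (summ y cj_abs).hasSum hs3
  have hE : 0 < Real.exp (-y) := Real.exp_pos _
  have h7 := mul_le_mul_of_nonneg_left h6 hE.le
  have h8 : Real.exp (-y) * Real.exp y = 1 := by rw [← Real.exp_add]; simp
  unfold G
  refine h7.trans (le_of_eq ?_)
  rw [← mul_sum, mul_add]
  congr 1
  · ring
  · calc Real.exp (-y) * (tt r * (y * Real.exp y)) = y * tt r * (Real.exp (-y) * Real.exp y) := by
          ring
      _ = y * tt r := by rw [h8, mul_one]

theorem one_add_le {δ : ℝ} (h0 : 0 ≤ δ) (h1 : δ ≤ 1) : 1 + δ ≤ Real.exp (δ - δ ^ 2 / 4) := by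
  have hx : 0 ≤ δ - δ ^ 2 / 4 := by nlinarith
  have h2 := Real.quadratic_le_exp_of_nonneg hx
  refine le_trans ?_ h2
  have h3 : (3 / 4 : ℝ) ≤ 1 - δ / 4 := by linarith
  have h4 : (9 / 16 : ℝ) ≤ (1 - δ / 4) ^ 2 := by nlinarith
  have h5 : (δ - δ ^ 2 / 4) ^ 2 = δ ^ 2 * (1 - δ / 4) ^ 2 := by ring
  rw [h5]
  nlinarith [sq_nonneg δ, mul_le_mul_of_nonneg_left h4 (sq_nonneg δ)]

/-- the relative error `√(log k / k)` -/
noncomputable def sk (k : ℝ) : ℝ := √(Real.log k / k)

theorem log_ge {k : ℕ} (hk : 32 ≤ k) : 3.465 ≤ Real.log k := by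
  have h1 : Real.log 32 ≤ Real.log k := Real.log_le_log (by norm_num) (by exact_mod_cast hk)
  have h2 : Real.log 32 = 5 * Real.log 2 := by
    rw [show (32 : ℝ) = 2 ^ 5 by norm_num, Real.log_pow]; norm_num
  have h3 := Real.log_two_gt_d9
  rw [h2] at h1
  linarith

theorem ratio_le {k : ℕ} (hk : 39 ≤ k) : Real.log k / k ≤ 1 / 9 := by
  have h1 : (39 : ℝ) ≤ k := by exact_mod_cast hk
  have he : Real.exp 1 ≤ 39 := by
    have := Real.exp_one_lt_d9
    linarith
  have h2 := Real.log_div_self_antitoneOn (a := (39 : ℝ)) (b := (k : ℝ)) he (he.trans h1) h1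
  refine h2.trans ?_
  have h3 : Real.log 39 ≤ Real.log 64 := Real.log_le_log (by norm_num) (by norm_num)
  have h4 : Real.log 64 = 6 * Real.log 2 := by
    rw [show (64 : ℝ) = 2 ^ 6 by norm_num, Real.log_pow]; norm_num
  have h5 := Real.log_two_lt_d9
  rw [div_le_iff₀ (by norm_num)]
  linarith

/-- the comparison of the limit with one value, large `k` -/
theorem compare {k : ℕ} (hk : 39 ≤ k) {C : ℝ} (hC : 1 ≤ C) :
    (1 + Real.exp (-(k * (1 + 2 * sk k)) / 2)) / (1 - Real.exp (-(k * (1 + 2 * sk k)) / 2)) *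
      (KK * (1 / k) + (1 + 2 * sk k) * C) ≤ (1 + 3 * sk k) * C := by
  have hk1 : (39 : ℝ) ≤ k := by exact_mod_cast hk
  have hk0 : (0 : ℝ) < k := by linarith
  have hlog := log_ge (k := k) (by omega)
  have hrat := ratio_le hk
  have hq0 : 0 ≤ Real.log k / k := by positivity
  obtain ⟨s, hs⟩ : ∃ s : ℝ, s = sk k := ⟨_, rfl⟩
  rw [← hs]
  have hs0 : 0 ≤ s := by rw [hs]; exact Real.sqrt_nonneg _
  have hs2 : s ^ 2 = Real.log k / k := by rw [hs]; exact Real.sq_sqrt hq0
  have hs3 : s ≤ 1 / 3 := by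
    by_contra hcon
    push Not at hcon
    nlinarith
  have hinv : 1 / (k : ℝ) * 3.465 ≤ s * (1 / 3) := by
    have h1 : 1 / (k : ℝ) * 3.465 ≤ 1 / (k : ℝ) * Real.log k :=
      mul_le_mul_of_nonneg_left hlog (by positivity)
    have h2 : 1 / (k : ℝ) * Real.log k = s ^ 2 := by rw [hs2]; ring
    nlinarith
  obtain ⟨p, hp⟩ : ∃ p : ℝ, p = Real.exp (-(k * (1 + 2 * s)) / 2) := ⟨_, rfl⟩
  rw [← hp]
  have hp0 : 0 < p := by rw [hp]; exact Real.exp_pos _
  have hp1 : p ≤ 1 / 8 * (1 / k) := by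
    have h1 : p ≤ Real.exp (-(k / 2)) := by
      rw [hp]
      apply Real.exp_le_exp.2
      nlinarith
    have h2 := Real.pow_div_factorial_le_exp (x := (k : ℝ) / 2) (by positivity) 3
    have h3 : (8 : ℝ) * k ≤ Real.exp (k / 2) := by
      refine le_trans ?_ h2
      have e : ((3 : ℕ).factorial : ℝ) = 6 := by norm_num [Nat.factorial]
      rw [e]
      have h39 : (39 : ℝ) ^ 2 ≤ (k : ℝ) ^ 2 := by nlinarith
      have : ((k : ℝ) / 2) ^ 3 / 6 = k * (k : ℝ) ^ 2 / 48 := by ring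
      rw [this, le_div_iff₀ (by norm_num)]
      nlinarith [mul_le_mul_of_nonneg_left h39 hk0.le]
    rw [Real.exp_neg] at h1
    refine h1.trans ?_
    rw [← one_div, show (1 : ℝ) / 8 * (1 / k) = 1 / (8 * k) by field_simp]
    exact one_div_le_one_div_of_le (by positivity) h3
  obtain ⟨u, hu⟩ : ∃ u : ℝ, u = 1 / (k : ℝ) := ⟨_, rfl⟩
  rw [← hu] at hinv hp1 ⊢
  have hu0 : 0 < u := by rw [hu]; positivity
  have hu1 : u ≤ 1 / 39 := by
    rw [hu]; exact one_div_le_one_div_of_le (by norm_num) hk1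
  have hK : KK = 262307 / 100000 := rfl
  have hp3 : p ≤ 1 / 3 := by linarith
  have hcoth : (1 + p) / (1 - p) ≤ 1 + 3 * p := by
    rw [div_le_iff₀ (by linarith)]
    nlinarith
  have hC0 : 0 < C := by linarith
  have hA : KK * u + (1 + 2 * s) * C ≤ (1 + 2 * s + KK * u) * C := by
    have : KK * u * 1 ≤ KK * u * C := mul_le_mul_of_nonneg_left hC (by rw [hK]; positivity)
    nlinarith
  have hA0 : 0 ≤ KK * u + (1 + 2 * s) * C := by rw [hK]; positivity
  have hB : (1 + 3 * p) * (1 + 2 * s + KK * u) ≤ 1 + 3 * s := by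
    have h1 : 1 + 2 * s + KK * u ≤ 1.74 := by rw [hK]; nlinarith
    have h2 : 3 * p * (1 + 2 * s + KK * u) ≤ 3 * p * 1.74 :=
      mul_le_mul_of_nonneg_left h1 (by positivity)
    rw [hK] at h2 ⊢
    nlinarith
  calc (1 + p) / (1 - p) * (KK * u + (1 + 2 * s) * C)
      ≤ (1 + 3 * p) * ((1 + 2 * s + KK * u) * C) :=
        mul_le_mul hcoth hA hA0 (by positivity)
    _ = (1 + 3 * p) * (1 + 2 * s + KK * u) * C := by ring
    _ ≤ (1 + 3 * s) * C := mul_le_mul_of_nonneg_right hB hC0.le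

end Pool.Agent.J4.H63.TL
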