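import Pool.Agent.J4.H63.TL.Lim

/-!
# The limit of `(r + 1) t(r+1, r)`: existence and formulas
-/

set_option autoImplicit false

open Finset Filter Topology

namespace Pool.Agent.J4.H63.TL

open Pool.Agent.H369R2.TD

/-- `(r + 1) t(r+1, r)` -/
noncomputable def CC (r : ℕ) : ℝ := ((r : ℝ) + 1) * tt r

theorem CC_nonneg (r : ℕ) : 0 ≤ CC r := mul_nonneg (by positivity) (tt_nonneg r)

theorem CC_le (r : ℕ) : CC r ≤ KK := tt_bound r

theorem CC_ge {r : ℕ} (hr : 3 ≤ r) : ((r : ℝ) + 1) / r ≤ CC r := by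
  have h := tt_ge hr
  have hr0 : (0 : ℝ) < r := by exact_mod_cast (show 0 < r by omega)
  unfold CC
  calc ((r : ℝ) + 1) / r = ((r : ℝ) + 1) * (1 / r) := by ring
    _ ≤ _ := mul_le_mul_of_nonneg_left h (by positivity)

theorem CC_one {r : ℕ} (hr : 3 ≤ r) : 1 ≤ CC r := by
  refine le_trans ?_ (CC_ge hr)
  have hr0 : (0 : ℝ) < r := by exact_mod_cast (show 0 < r by omega)
  rw [le_div_iff₀ hr0]
  linarith

/-- the eventual upper bounds -/
def UB : Set ℝ := {V | ∀ᶠ r : ℕ in atTop, CC r ≤ V}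

/-- the limit -/
noncomputable def LL : ℝ := sInf UB

theorem UB_ge {V : ℝ} (hV : V ∈ UB) : 1 ≤ V := by
  have h : ∀ᶠ r : ℕ in atTop, CC r ≤ V := hV
  obtain ⟨r, h1, h2⟩ := (h.and (eventually_ge_atTop 3)).exists
  exact (CC_one h2).trans h1

theorem UB_bdd : BddBelow UB := ⟨1, fun _ hV => UB_ge hV⟩

theorem UB_ne : UB.Nonempty := ⟨KK, Eventually.of_forall CC_le⟩

theorem LL_ge : 1 ≤ LL := le_csInf UB_ne fun _ hV => UB_ge hV

theorem LL_le {V : ℝ} (h : ∀ᶠ r : ℕ in atTop, CC r ≤ V) : LL ≤ V := csInf_le UB_bdd h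

theorem LL_le_G {y : ℝ} (hy : 0 < y) :
    LL ≤ (1 + Real.exp (-y / 2)) / (1 - Real.exp (-y / 2)) * G y :=
  le_of_forall_gt_imp_ge_of_dense fun _ hV => LL_le (eventually_le hy hV)

theorem LL_1919 : LL ≤ 1.919 := by
  refine LL_le ?_
  filter_upwards [Pool.Agent.J4.H76.TK.tur_1919] with r hr
  have h := tt_le hr
  rw [le_div_iff₀ (by positivity)] at h
  unfold CC
  linarith

theorem LL_le_CC {r : ℕ} (hr : 3 ≤ r) : LL ≤ (1 + 3 * sk ((r : ℝ) + 1)) * CC r := by
  obtain ⟨k, hk⟩ : ∃ k : ℕ, k = r + 1 := ⟨_, rfl⟩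
  have hkr : ((k : ℕ) : ℝ) = (r : ℝ) + 1 := by rw [hk]; push_cast; ring
  rw [← hkr]
  have hk4 : (4 : ℝ) ≤ k := by exact_mod_cast (show 4 ≤ k by omega)
  have hk0 : (0 : ℝ) < k := by linarith
  have hlog0 : 0 < Real.log k := Real.log_pos (by linarith)
  have hs0 : 0 ≤ sk (k : ℝ) := Real.sqrt_nonneg _
  have hs2 : sk (k : ℝ) ^ 2 = Real.log k / k := Real.sq_sqrt (by positivity)
  rcases lt_or_ge k 39 with hk39 | hk39
  · -- small `k`
    have h38 : (k : ℝ) ≤ 38 := by exact_mod_cast (show k ≤ 38 by omega)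
    have he : Real.exp 1 ≤ k := by
      have := Real.exp_one_lt_d9
      linarith
    have h1 := Real.log_div_self_antitoneOn (a := (k : ℝ)) (b := (38 : ℝ)) he (he.trans h38) h38
    have h2 := log_ge (k := 38) (by norm_num)
    have h3 : (0.09 : ℝ) ≤ sk (k : ℝ) ^ 2 := by
      rw [hs2]
      refine le_trans ?_ h1
      rw [le_div_iff₀ (by norm_num)]
      push_cast at h2
      linarith
    have h4 : (0.3 : ℝ) ≤ sk (k : ℝ) := by
      by_contra hcon
      push Not at hcon
      nlinarith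
    have h5 := CC_ge hr
    rw [← hkr] at h5
    have hr0 : (0 : ℝ) < r := by exact_mod_cast (show 0 < r by omega)
    have h6 : (38 / 37 : ℝ) ≤ (k : ℝ) / r := by
      rw [le_div_iff₀ hr0]
      have : (r : ℝ) = k - 1 := by linarith
      rw [this]
      linarith
    have h7 := LL_1919
    have h8 := h6.trans h5
    nlinarith
  · obtain ⟨s, hs⟩ : ∃ s : ℝ, s = sk (k : ℝ) := ⟨_, rfl⟩
    have hcomp := compare hk39 (CC_one hr)
    rw [← hs] at hcomp hs0 hs2 ⊢
    have hs1 : s ≤ 1 / 3 := by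
      have := ratio_le hk39
      by_contra hcon
      push Not at hcon
      nlinarith
    obtain ⟨y, hy⟩ : ∃ y : ℝ, y = k * (1 + 2 * s) := ⟨_, rfl⟩
    have hyk : (k : ℝ) ≤ y := by rw [hy]; nlinarith
    have hy0 : 0 < y := by linarith
    rw [← hy] at hcomp
    have h1 := LL_le_G hy0
    have h2 := G_le (r := r) hy0.le
    have h3 := tail_le (k := k) (by omega) hyk
    have e1 : k + 1 = r + 2 := by omega
    rw [e1] at h3
    -- the tail is at most `1 / k`
    have h4 : Real.exp (k - y) * (y / k) ^ k ≤ 1 / k := by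
      have e2 : y / k = 1 + 2 * s := by rw [hy]; field_simp
      have h5 := one_add_le (δ := 2 * s) (by positivity) (by linarith)
      have h6 : (1 + 2 * s) ^ k ≤ Real.exp (k * (2 * s - (2 * s) ^ 2 / 4)) := by
        rw [Real.exp_nat_mul]
        exact pow_le_pow_left₀ (by positivity) h5 k
      rw [e2]
      calc Real.exp (k - y) * (1 + 2 * s) ^ k
          ≤ Real.exp (k - y) * Real.exp (k * (2 * s - (2 * s) ^ 2 / 4)) :=
            mul_le_mul_of_nonneg_left h6 (Real.exp_pos _).le
        _ = Real.exp (-(k * s ^ 2)) := by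
            rw [← Real.exp_add, hy]
            congr 1
            ring
        _ = 1 / k := by
            rw [hs2]
            have e3 : (k : ℝ) * (Real.log k / k) = Real.log k := by field_simp
            rw [e3, Real.exp_neg, Real.exp_log hk0, one_div]
    have h7 : G y ≤ KK * (1 / k) + (1 + 2 * s) * CC r := by
      refine h2.trans (add_le_add ?_ ?_)
      · exact mul_le_mul_of_nonneg_left (h3.trans h4) (by unfold KK; norm_num)
      · rw [hy, hkr]
        unfold CC
        exact le_of_eq (by ring)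
    have hp1 : Real.exp (-y / 2) < 1 := by
      have h := Real.exp_lt_exp.2 (show -y / 2 < 0 by linarith)
      rwa [Real.exp_zero] at h
    have hp0 := Real.exp_pos (-y / 2)
    have hq : 0 ≤ (1 + Real.exp (-y / 2)) / (1 - Real.exp (-y / 2)) :=
      div_nonneg (by linarith) (by linarith)
    exact (h1.trans (mul_le_mul_of_nonneg_left h7 hq)).trans hcomp

theorem sk_tendsto : Tendsto (fun r : ℕ => sk ((r : ℝ) + 1)) atTop (𝓝 0) := by
  have h1 : Tendsto (fun x : ℝ => Real.log x / x) atTop (𝓝 0) :=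
    Real.isLittleO_log_id_atTop.tendsto_div_nhds_zero
  have h2 : Tendsto (fun r : ℕ => (r : ℝ) + 1) atTop atTop :=
    tendsto_atTop_add_const_right _ _ tendsto_natCast_atTop_atTop
  have h3 := (h1.comp h2).sqrt
  rw [Real.sqrt_zero] at h3
  exact h3

theorem CC_tendsto : Tendsto CC atTop (𝓝 LL) := by
  have hlow : Tendsto (fun r : ℕ => LL / (1 + 3 * sk ((r : ℝ) + 1))) atTop (𝓝 LL) := by
    have h1 : Tendsto (fun r : ℕ => 1 + 3 * sk ((r : ℝ) + 1)) atTop (𝓝 (1 + 3 * 0)) :=
      (sk_tendsto.const_mul 3).const_add 1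
    have h2 := (tendsto_const_nhds (x := LL) (f := (atTop : Filter ℕ))).div h1 (by norm_num)
    have e : LL / (1 + 3 * 0) = LL := by norm_num
    rw [e] at h2
    exact h2
  refine tendsto_order.2 ⟨fun a ha => ?_, fun a ha => ?_⟩
  · filter_upwards [hlow.eventually_const_lt ha, eventually_ge_atTop 3] with r h1 h2
    refine h1.trans_le ?_
    have h3 : 0 ≤ sk ((r : ℝ) + 1) := Real.sqrt_nonneg _
    rw [div_le_iff₀ (by positivity), mul_comm]
    exact LL_le_CC h2
  · obtain ⟨V, hV, hVa⟩ := exists_lt_of_csInf_lt UB_ne ha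
    have h : ∀ᶠ r : ℕ in atTop, CC r ≤ V := hV
    exact h.mono fun r hr => hr.trans_lt hVa

/-- the Borel means of a convergent sequence -/
theorem G_tendsto : Tendsto G atTop (𝓝 LL) := by
  have hc : Tendsto cj atTop (𝓝 LL) := by
    rw [← tendsto_add_atTop_iff_nat 1]
    refine CC_tendsto.congr fun m => ?_
    rw [cj_succ]
    rfl
  have hK : (0 : ℝ) ≤ KK := by unfold KK; norm_num
  have hLK : LL ≤ KK := LL_le (Eventually.of_forall CC_le)
  have hL0 : 0 ≤ LL := zero_le_one.trans LL_ge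
  rw [Metric.tendsto_atTop]
  intro ε hε
  obtain ⟨N, hN⟩ := Metric.tendsto_atTop.1 hc (ε / 2) (by positivity)
  -- the beginning of the sequence
  have hbeg : Tendsto (fun y : ℝ => Real.exp (-y) * ∑ j ∈ range N, y ^ j / (j.factorial : ℝ)) atTop
      (𝓝 0) := by
    have h1 : ∀ j ∈ range N, Tendsto (fun y : ℝ => Real.exp (-y) * (y ^ j / (j.factorial : ℝ))) atTop
        (𝓝 0) := by
      intro j _
      have h2 := (Real.tendsto_pow_mul_exp_neg_atTop_nhds_zero j).const_mul (1 / (j.factorial : ℝ))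
      rw [mul_zero] at h2
      refine h2.congr fun y => ?_
      ring
    have h3 := tendsto_finsetSum _ h1
    rw [sum_const_zero] at h3
    refine h3.congr fun y => ?_
    rw [mul_sum]
  have hev := (hbeg.const_mul KK).eventually_lt_const (u := ε / 2) (by rw [mul_zero]; positivity)
  obtain ⟨y₀, hy₀⟩ := eventually_atTop.1 hev
  refine ⟨max y₀ 0, fun y hy => ?_⟩
  have hy1 := hy₀ y ((le_max_left _ _).trans hy)
  have hy2 : 0 ≤ y := (le_max_right _ _).trans hy
  rw [Real.dist_eq]
  have hE : 0 < Real.exp (-y) := Real.exp_pos _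
  have hEE : Real.exp (-y) * Real.exp y = 1 := by rw [← Real.exp_add]; simp
  have habs : ∀ j, |cj j - LL| ≤ KK := by
    intro j
    rw [abs_le]
    have h1 := cj_nonneg j
    have h2 := cj_le j
    constructor <;> linarith
  have hs1 : Summable fun j : ℕ => (cj j - LL) * (y ^ j / (j.factorial : ℝ)) := summ y habs
  have hdiff : G y - LL = Real.exp (-y) * ∑' j : ℕ, (cj j - LL) * (y ^ j / (j.factorial : ℝ)) := by
    have h1 : ∑' j : ℕ, (cj j - LL) * (y ^ j / (j.factorial : ℝ)) + LL * Real.exp y =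
        ∑' j : ℕ, cj j * (y ^ j / (j.factorial : ℝ)) := by
      rw [← exp_tsum, ← tsum_mul_left, ← Summable.tsum_add hs1
        ((Real.summable_pow_div_factorial y).mul_left LL)]
      refine tsum_congr fun j => ?_
      ring
    unfold G
    rw [← h1, mul_add]
    have h2 : Real.exp (-y) * (LL * Real.exp y) = LL * (Real.exp (-y) * Real.exp y) := by ring
    rw [h2, hEE]
    ring
  have hnorm : |∑' j : ℕ, (cj j - LL) * (y ^ j / (j.factorial : ℝ))| ≤
      KK * ∑ j ∈ range N, y ^ j / (j.factorial : ℝ) + ε / 2 * Real.exp y := by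
    have hpt : ∀ j : ℕ, |(cj j - LL) * (y ^ j / (j.factorial : ℝ))| ≤
        (if j < N then KK * (y ^ j / (j.factorial : ℝ)) else 0) +
          ε / 2 * (y ^ j / (j.factorial : ℝ)) := by
      intro j
      have hp : (0 : ℝ) ≤ y ^ j / (j.factorial : ℝ) := by positivity
      rw [abs_mul, abs_of_nonneg hp]
      by_cases hj : j < N
      · rw [if_pos hj]
        have h1 := mul_le_mul_of_nonneg_right (habs j) hp
        have h2 : 0 ≤ ε / 2 * (y ^ j / (j.factorial : ℝ)) := by positivity
        linarith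
      · rw [if_neg hj, zero_add]
        have h1 := hN j (by omega)
        rw [Real.dist_eq] at h1
        exact mul_le_mul_of_nonneg_right h1.le hp
    have hs2 : HasSum (fun j : ℕ => if j < N then KK * (y ^ j / (j.factorial : ℝ)) else 0)
        (∑ j ∈ range N, KK * (y ^ j / (j.factorial : ℝ))) := by
      have h : HasSum (fun j : ℕ => if j < N then KK * (y ^ j / (j.factorial : ℝ)) else 0)
          (∑ j ∈ range N, (if j < N then KK * (y ^ j / (j.factorial : ℝ)) else 0)) :=
        hasSum_sum_of_ne_finset_zero (fun j hj => by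
          have : ¬ j < N := by simpa using hj
          simp only [if_neg this])
      have e : ∑ j ∈ range N, (if j < N then KK * (y ^ j / (j.factorial : ℝ)) else 0) =
          ∑ j ∈ range N, KK * (y ^ j / (j.factorial : ℝ)) :=
        sum_congr rfl fun j hj => if_pos (mem_range.1 hj)
      rwa [e] at h
    have hs3 : HasSum (fun j : ℕ => ε / 2 * (y ^ j / (j.factorial : ℝ))) (ε / 2 * Real.exp y) := by
      have h2 := (Real.summable_pow_div_factorial y).hasSum
      rw [exp_tsum] at h2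
      exact h2.mul_left _
    have h4 := hasSum_le hpt hs1.abs.hasSum (hs2.add hs3)
    rw [← mul_sum] at h4
    have h5 := norm_tsum_le_tsum_norm (f := fun j : ℕ => (cj j - LL) * (y ^ j / (j.factorial : ℝ)))
      hs1.norm
    simp only [Real.norm_eq_abs] at h5
    exact h5.trans h4
  rw [hdiff, abs_mul, abs_of_pos hE]
  calc Real.exp (-y) * |∑' j : ℕ, (cj j - LL) * (y ^ j / (j.factorial : ℝ))|
      ≤ Real.exp (-y) * (KK * ∑ j ∈ range N, y ^ j / (j.factorial : ℝ) + ε / 2 * Real.exp y) :=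
        mul_le_mul_of_nonneg_left hnorm hE.le
    _ = KK * (Real.exp (-y) * ∑ j ∈ range N, y ^ j / (j.factorial : ℝ)) +
        ε / 2 * (Real.exp (-y) * Real.exp y) := by ring
    _ < ε := by rw [hEE]; linarith

theorem coth_tendsto : Tendsto (fun y : ℝ => (1 + Real.exp (-y / 2)) / (1 - Real.exp (-y / 2)) * G y)
    atTop (𝓝 LL) := by
  have h1 : Tendsto (fun y : ℝ => Real.exp (-y / 2)) atTop (𝓝 0) := by
    refine Real.tendsto_exp_atBot.comp ?_
    have h2 : Tendsto (fun y : ℝ => y / 2) atTop atTop :=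
      tendsto_id.atTop_div_const (by norm_num)
    have h3 := tendsto_neg_atTop_atBot.comp h2
    refine h3.congr fun y => ?_
    simp [neg_div]
  have h4 : Tendsto (fun y : ℝ => (1 + Real.exp (-y / 2)) / (1 - Real.exp (-y / 2))) atTop
      (𝓝 ((1 + 0) / (1 - 0))) := (h1.const_add 1).div (h1.const_sub 1) (by norm_num)
  have h5 := h4.mul G_tendsto
  simpa using h5

end Pool.Agent.J4.H63.TL
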