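import Pool.Agent.H369R2.TD.Asy
import Pool.Agent.H369R2.TD.Link
import Pool.Agent.H688R3.TuranGenLimit
import Pool.Agent.TH440.DC.Main
import Pool.Agent.J4.H76.TK.Num

/-!
# The numbers `t(r+1, r)` and the Poisson averages: from the determinant codes to an inequality
for all `y > 0`
-/

set_option autoImplicit false

open Finset Filter Topology

namespace Pool.Agent.J4.H63.TL

open Pool.Agent.H369R2.TD
open Pool.Agent.H688R3.TuranGen (t c Cov exists_cov c_le_t)

/-- `t(r+1, r)`, the density `1 - π(K_{r+1}^r)` -/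
noncomputable def tt (r : ℕ) : ℝ := 1 - Pool.Agent.H120R2.Clique.turanDensity r (r + 1)

theorem tur_tt (r : ℕ) : Tur r (tt r) := by
  intro n
  obtain ⟨F, hF, hFc⟩ := exists_cov (Nat.le_succ r) n
  refine ⟨F, hF.1, hF.2, ?_⟩
  rw [hFc]
  exact c_le_t r (r + 1) n

theorem tt_le {r : ℕ} {δ : ℝ} (h : Tur r δ) : tt r ≤ δ := by
  have := density_of_tur h
  unfold tt
  linarith

theorem tt_nonneg (r : ℕ) : 0 ≤ tt r := Pool.Agent.H688R3.TuranGen.t_nonneg (Nat.le_succ r)

theorem tt_succ_le (r : ℕ) : tt (r + 1) ≤ tt r := tt_le (tur_tt r).succ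

theorem tt_anti : Antitone tt := antitone_nat_of_succ_le tt_succ_le

/-- a bound for all `(r + 1) t(r+1, r)` -/
noncomputable def KK : ℝ := 262307 / 100000

theorem tt_bound (r : ℕ) : ((r : ℝ) + 1) * tt r ≤ KK := by
  have h1 := tt_le (Pool.Agent.TH485.Uni.tur_dn r)
  have h2 : ((r : ℝ) + 1) * tt r ≤ ((r : ℝ) + 1) * Pool.Agent.TH485.Uni.dn r :=
    mul_le_mul_of_nonneg_left h1 (by positivity)
  rw [Pool.Agent.J4.H76.TK.cc_eq] at h2
  exact h2.trans (Pool.Agent.J4.H76.TK.cc_le _)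

theorem tt_ge {r : ℕ} (hr : 3 ≤ r) : 1 / (r : ℝ) ≤ tt r := by
  have h := (Pool.Agent.TH440.DC.main hr (Nat.lt_succ_self r)).1
  have e : (r.succ - 1).choose (r - 1) = r := by
    obtain ⟨s, rfl⟩ : ∃ s, r = s + 1 := ⟨r - 1, by omega⟩
    simp
  unfold Pool.Agent.TH440.DC.DD at h
  rw [e] at h
  have hr0 : (0 : ℝ) < r := by exact_mod_cast (show 0 < r by omega)
  have h3 : (0 : ℝ) ≤ (1 / (r : ℝ)) ^ 3 / 40 := by positivity
  unfold tt
  have e2 : r.succ = r + 1 := rfl
  rw [e2] at h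
  linarith

/-- the sequence `c 0 = 0`, `c j = j t(j, j-1)` -/
noncomputable def cj (j : ℕ) : ℝ := (j : ℝ) * tt (j - 1)

theorem cj_succ (m : ℕ) : cj (m + 1) = ((m : ℝ) + 1) * tt m := by
  unfold cj
  rw [Nat.add_sub_cancel]
  push_cast
  ring

theorem cj_zero : cj 0 = 0 := by unfold cj; simp

theorem cj_nonneg (j : ℕ) : 0 ≤ cj j := mul_nonneg (Nat.cast_nonneg _) (tt_nonneg _)

theorem cj_le (j : ℕ) : cj j ≤ KK := by
  rcases j with _ | m
  · rw [cj_zero]; unfold KK; norm_num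
  · rw [cj_succ]; exact tt_bound m

theorem summ (y : ℝ) {f : ℕ → ℝ} {M : ℝ} (hf : ∀ j, |f j| ≤ M) :
    Summable fun j : ℕ => f j * (y ^ j / (j.factorial : ℝ)) := by
  refine Summable.of_norm_bounded ((Real.summable_pow_div_factorial |y|).mul_left M) fun j => ?_
  rw [norm_mul, norm_div, norm_pow, Real.norm_eq_abs, Real.norm_eq_abs, Real.norm_eq_abs,
    abs_of_pos (by positivity : (0 : ℝ) < (j.factorial : ℝ))]
  exact mul_le_mul_of_nonneg_right (hf j) (by positivity)

theorem cj_abs (j : ℕ) : |cj j| ≤ KK := by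
  rw [abs_of_nonneg (cj_nonneg j)]
  exact cj_le j

/-- the Poisson average of `cj` -/
noncomputable def G (y : ℝ) : ℝ := Real.exp (-y) * ∑' j : ℕ, cj j * (y ^ j / (j.factorial : ℝ))

theorem exp_tsum (y : ℝ) : ∑' j : ℕ, y ^ j / (j.factorial : ℝ) = Real.exp y := by
  rw [Real.exp_eq_exp_ℝ]
  exact (congrFun NormedSpace.exp_eq_tsum_div y).symm

theorem G_eq (y : ℝ) : G y = y * Real.exp (-y) * ∑' r : ℕ, tt r * (y ^ r / (r.factorial : ℝ)) := by
  have h : ∑' j : ℕ, cj (j + 1) * (y ^ (j + 1) / ((j + 1).factorial : ℝ)) =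
      y * ∑' r : ℕ, tt r * (y ^ r / (r.factorial : ℝ)) := by
    rw [← tsum_mul_left]
    refine tsum_congr fun m => ?_
    rw [cj_succ, Nat.factorial_succ]
    have h1 : (0 : ℝ) < (m.factorial : ℝ) := by positivity
    push_cast
    field_simp
    ring
  unfold G
  rw [Summable.tsum_eq_zero_add (summ y cj_abs), cj_zero, zero_mul, zero_add, h]
  ring

/-- the finite sums `Psi` converge to the Poisson average -/
theorem psi_tendsto (y : ℝ) : Tendsto (fun J : ℕ => Real.exp (-y) * Psi J cj KK y) atTop (𝓝 (G y)) := by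
  unfold G
  refine Tendsto.const_mul _ ?_
  have h1 : Summable fun j : ℕ => (cj j - KK) * (y ^ j / (j.factorial : ℝ)) := by
    refine summ y (M := KK) fun j => ?_
    rw [abs_le]
    have h1 := cj_nonneg j
    have h2 := cj_le j
    have h3 : (0 : ℝ) ≤ KK := by unfold KK; norm_num
    constructor <;> linarith
  have h2 := h1.hasSum.tendsto_sum_nat
  have h3 : ∑' j : ℕ, (cj j - KK) * (y ^ j / (j.factorial : ℝ)) + KK * Real.exp y =
      ∑' j : ℕ, cj j * (y ^ j / (j.factorial : ℝ)) := by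
    rw [← exp_tsum, ← tsum_mul_left, ← Summable.tsum_add h1
      ((Real.summable_pow_div_factorial y).mul_left KK)]
    congr 1
    funext j
    ring
  rw [← h3]
  exact h2.add_const _

theorem psi_cont (J : ℕ) (K y : ℝ) : Continuous fun x : ℝ => Real.exp (-y) * Psi J cj K x := by
  unfold Psi
  fun_prop

/-- the determinant codes give the inequality for the Poisson average -/
theorem eventually_le {y V : ℝ} (hy : 0 < y)
    (hV : (1 + Real.exp (-y / 2)) / (1 - Real.exp (-y / 2)) * G y < V) :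
    ∀ᶠ r : ℕ in atTop, ((r : ℝ) + 1) * tt r ≤ V := by
  obtain ⟨p, hp⟩ : ∃ p : ℝ, p = Real.exp (-y / 2) := ⟨_, rfl⟩
  have hp0 : 0 < p := by rw [hp]; exact Real.exp_pos _
  have hp1 : p < 1 := by
    have h := Real.exp_lt_exp.2 (show -y / 2 < 0 by linarith)
    rw [Real.exp_zero] at h
    rw [hp]
    exact h
  have hpp : Real.exp (-y) = p ^ 2 := by
    rw [hp, ← Real.exp_nat_mul]
    congr 1
    push_cast
    ring
  rw [← hp] at hV
  have h1p : 0 < 1 - p := by linarith
  have hc0 : 0 < (1 + p) / (1 - p) := by positivity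
  have hV' : G y < V / ((1 + p) / (1 - p)) := by
    rw [lt_div_iff₀ hc0]
    linarith
  obtain ⟨J, hJ1, hJ⟩ := (((psi_tendsto y).eventually_lt_const hV').and
    (eventually_ge_atTop 1)).exists
  have hcont := (psi_cont J KK y).tendsto y
  have h3 : ∀ᶠ x in 𝓝[>] y, Real.exp (-y) * Psi J cj KK x < V / ((1 + p) / (1 - p)) :=
    (hcont.mono_left nhdsWithin_le_nhds).eventually_lt_const hJ1
  obtain ⟨x, hx1, hx⟩ := (h3.and self_mem_nhdsWithin).exists
  have hx' : y < x := hx
  have hlam : 0 < 1 / (1 + p) := by positivity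
  have hfin := asymptotic (δ := tt) (c := cj) (J := J) (K := KK) tur_tt tt_nonneg cj_zero
    (fun m _ => (cj_succ m).ge) (fun m => tt_bound m) hJ
    (y₁ := y) (x₁ := x) (y₂ := y) (x₂ := x) (lam := 1 / (1 + p))
    (D₁ := Real.exp (-y) * Psi J cj KK x) (D₂ := Real.exp (-y) * Psi J cj KK x)
    (P₁ := p ^ 2) (P₂ := p ^ 2) (V := V) hy hx' hy hx' hlam
    (by rw [div_lt_one (by linarith)]; linarith) le_rfl le_rfl hpp.le (by nlinarith) hpp.le
    (by nlinarith) (by
      rw [lt_div_iff₀ hc0] at hx1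
      refine lt_of_eq_of_lt ?_ hx1
      generalize Real.exp (-y) * Psi J cj KK x = D
      have e1 : (1 : ℝ) - p ^ 2 = (1 - p) * (1 + p) := by ring
      have e2 : 1 - 1 / (1 + p) = p / (1 + p) := by field_simp; ring
      rw [e1, e2]
      field_simp)
  filter_upwards [hfin] with r hr
  have h := tt_le hr
  rw [le_div_iff₀ (by positivity)] at h
  linarith

end Pool.Agent.J4.H63.TL
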